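import Mathlib
import Pool.Agent.Helper94.Tot.Defs
import Pool.Agent.Helper94.Tot.Goals

/-!
# Packet N1 of the normal order of the iterated totient class: the first moment
-/

set_option autoImplicit false

open Finset

namespace Pool.Agent.Helper65.Tot

open Pool.Agent.Helper94.Tot

/-- primes `p` in the dyadic block with `q ∣ p - 1` and a large cofactor -/
lemma card_large (κ : ℕ) (C : ℝ) (hC : 0 < C)
    (hBT : ∀ d N : ℕ, 1 ≤ d → 2 ≤ N →
      (((Icc 1 N).filter (fun t => (d * t + 1).Prime)).card : ℝ)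
        ≤ C * (N / Real.log N) * (d / (Nat.totient d : ℝ)))
    (hκ : 1 ≤ κ) (n : ℕ) (hn : 1 ≤ n) (q : ℕ) (hq : q.Prime) :
    (((DB n).filter (fun p => q ∣ p - 1 ∧ 2 ^ n ≤ ((p - 1) / q) ^ κ)).card : ℝ)
      ≤ (4 * κ * C / Real.log 2) * (2 ^ n / n) * (1 / q) := by
  classical
  have hq0 : 0 < q := hq.pos
  have hqR : (0 : ℝ) < q := by exact_mod_cast hq0
  have hlog2 : 0 < Real.log 2 := Real.log_pos (by norm_num)
  have hnR : (0 : ℝ) < n := by exact_mod_cast hn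
  have hκR : (0 : ℝ) < κ := by exact_mod_cast hκ
  set S := (DB n).filter (fun p => q ∣ p - 1 ∧ 2 ^ n ≤ ((p - 1) / q) ^ κ) with hS
  rcases S.eq_empty_or_nonempty with hemp | ⟨p₀, hp₀⟩
  · rw [hemp]
    simp only [card_empty, Nat.cast_zero]
    positivity
  set N := 2 ^ (n + 1) / q with hN
  have hmem : ∀ p ∈ S, p.Prime ∧ 2 ^ n < p ∧ p ≤ 2 ^ (n + 1) ∧ q ∣ p - 1 ∧
      2 ^ n ≤ ((p - 1) / q) ^ κ := by
    intro p hp
    simp only [hS, DB, mem_filter, mem_Ioc] at hp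
    exact ⟨hp.1.2, hp.1.1.1, hp.1.1.2, hp.2.1, hp.2.2⟩
  have hle : ∀ p ∈ S, (p - 1) / q ≤ N := by
    intro p hp
    obtain ⟨_, _, h2, _, _⟩ := hmem p hp
    exact Nat.div_le_div_right (by omega)
  have hNk : 2 ^ n ≤ N ^ κ := by
    obtain ⟨_, _, _, _, h5⟩ := hmem p₀ hp₀
    exact h5.trans (Nat.pow_le_pow_left (hle p₀ hp₀) κ)
  have h2n : 2 ≤ 2 ^ n := by
    calc 2 = 2 ^ 1 := by norm_num
      _ ≤ 2 ^ n := Nat.pow_le_pow_right (by norm_num) hn
  have hN2 : 2 ≤ N := by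
    by_contra hlt
    have h1 : N ≤ 1 := by omega
    have : N ^ κ ≤ 1 := by
      calc N ^ κ ≤ 1 ^ κ := Nat.pow_le_pow_left h1 κ
        _ = 1 := one_pow κ
    omega
  have hNR : (0 : ℝ) < N := by
    have : 0 < N := by omega
    exact_mod_cast this
  have hlogN : n * Real.log 2 / κ ≤ Real.log N := by
    have h1 : ((2 : ℝ) ^ n) ≤ (N : ℝ) ^ κ := by exact_mod_cast hNk
    have h2 := Real.log_le_log (by positivity) h1
    rw [Real.log_pow, Real.log_pow] at h2
    rw [div_le_iff₀ hκR]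
    linarith
  have hlogpos : 0 < n * Real.log 2 / κ := by positivity
  have hcard : S.card ≤ ((Icc 1 N).filter (fun t => (q * t + 1).Prime)).card := by
    apply Finset.card_le_card_of_injOn (fun p => (p - 1) / q)
    · intro p hp
      have hp' : p ∈ S := hp
      obtain ⟨hpp, hp1, hp2, hp3, hp4⟩ := hmem p hp'
      have heq : q * ((p - 1) / q) = p - 1 := Nat.mul_div_cancel' hp3
      simp only [coe_filter, mem_Icc, Set.mem_ofPred_eq]
      refine ⟨⟨?_, hle p hp'⟩, ?_⟩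
      · rcases Nat.eq_zero_or_pos ((p - 1) / q) with h0 | h0
        · exfalso
          rw [h0] at heq
          omega
        · exact h0
      · rw [heq]
        have : p - 1 + 1 = p := by omega
        rw [this]
        exact hpp
    · intro p hp p' hp' h
      have hp1 : p ∈ S := hp
      have hp1' : p' ∈ S := hp'
      obtain ⟨hpp, h1, h2, h3, _⟩ := hmem p hp1
      obtain ⟨hpp', h1', h2', h3', _⟩ := hmem p' hp1'
      have e1 : q * ((p - 1) / q) = p - 1 := Nat.mul_div_cancel' h3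
      have e2 : q * ((p' - 1) / q) = p' - 1 := Nat.mul_div_cancel' h3'
      have h' : (p - 1) / q = (p' - 1) / q := h
      rw [h', e2] at e1
      omega
  have hB := hBT q N hq0 hN2
  have hphi : (q : ℝ) / (Nat.totient q : ℝ) ≤ 2 := by
    rw [Nat.totient_prime hq]
    have h2 : 2 ≤ q := hq.two_le
    have h3 : ((q - 1 : ℕ) : ℝ) = (q : ℝ) - 1 := by
      rw [Nat.cast_sub hq.one_le, Nat.cast_one]
    have h4 : (2 : ℝ) ≤ q := by exact_mod_cast h2
    rw [h3, div_le_iff₀ (by linarith)]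
    linarith
  have hNle : (N : ℝ) ≤ 2 ^ (n + 1) / q := by
    have h := @Nat.cast_div_le ℝ _ _ _ (2 ^ (n + 1)) q
    have h' : (N : ℝ) ≤ ((2 ^ (n + 1) : ℕ) : ℝ) / q := h
    push_cast at h'
    exact h'
  have hNlog : (N : ℝ) / Real.log N ≤ (2 ^ (n + 1) / q) / (n * Real.log 2 / κ) :=
    div_le_div₀ (by positivity) hNle hlogpos hlogN
  calc (S.card : ℝ) ≤ (((Icc 1 N).filter (fun t => (q * t + 1).Prime)).card : ℝ) := by
        exact_mod_cast hcard
    _ ≤ C * (N / Real.log N) * (q / (Nat.totient q : ℝ)) := hB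
    _ ≤ C * ((2 ^ (n + 1) / q) / (n * Real.log 2 / κ)) * 2 := by
        have hl0 : 0 < Real.log N := lt_of_lt_of_le hlogpos hlogN
        apply mul_le_mul
        · exact mul_le_mul_of_nonneg_left hNlog hC.le
        · exact hphi
        · positivity
        · positivity
    _ = (4 * κ * C / Real.log 2) * (2 ^ n / n) * (1 / q) := by
        field_simp
        ring

theorem pf_N1 (hNB : StmtNB) (hBT : StmtBT) : StmtN1 := by
  classical
  obtain ⟨κ, C₁, hκ, hC₁, hNB⟩ := hNB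
  obtain ⟨C₂, hC₂, hBT⟩ := hBT
  have hlog2 : 0 < Real.log 2 := Real.log_pos (by norm_num)
  have hκR : (0 : ℝ) < κ := by exact_mod_cast hκ
  refine ⟨C₁ + 4 * κ * C₂ / Real.log 2, by positivity, ?_⟩
  intro n hn W B hW hB
  have hnR : (0 : ℝ) < n := by exact_mod_cast hn
  have hB0 : 0 ≤ B := by
    have h2 : 2 ∈ PN (n + 1) := by
      simp only [PN, mem_filter, mem_Icc]
      refine ⟨⟨by norm_num, ?_⟩, Nat.prime_two⟩
      calc 2 = 2 ^ 1 := by norm_num
        _ ≤ 2 ^ (n + 1) := Nat.pow_le_pow_right (by norm_num) (by omega)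
    exact (hW 2).trans (hB 2 h2)
  have hsub : ∀ p ∈ DB n, (p - 1).primeFactors ⊆ (PN (n + 1)).filter (fun q => q ∣ p - 1) := by
    intro p hp q hq
    simp only [DB, mem_filter, mem_Ioc] at hp
    have hqp := Nat.prime_of_mem_primeFactors hq
    have hqd := Nat.dvd_of_mem_primeFactors hq
    have hpos : 0 < p - 1 := by
      have := (Nat.mem_primeFactors.mp hq).2.2
      omega
    have hle := Nat.le_of_dvd hpos hqd
    simp only [PN, mem_filter, mem_Icc]
    exact ⟨⟨⟨hqp.one_le, by omega⟩, hqp⟩, hqd⟩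
  have hstep : ∑ p ∈ DB n, ∑ q ∈ (p - 1).primeFactors, W q
      ≤ ∑ q ∈ PN (n + 1), W q * (((DB n).filter (fun p => q ∣ p - 1)).card : ℝ) := by
    calc ∑ p ∈ DB n, ∑ q ∈ (p - 1).primeFactors, W q
        ≤ ∑ p ∈ DB n, ∑ q ∈ (PN (n + 1)).filter (fun q => q ∣ p - 1), W q :=
          Finset.sum_le_sum fun p hp =>
            Finset.sum_le_sum_of_subset_of_nonneg (hsub p hp) fun q _ _ => hW q
      _ = ∑ p ∈ DB n, ∑ q ∈ PN (n + 1), if q ∣ p - 1 then W q else 0 := by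
          refine Finset.sum_congr rfl fun p _ => ?_
          rw [Finset.sum_filter]
      _ = ∑ q ∈ PN (n + 1), ∑ p ∈ DB n, if q ∣ p - 1 then W q else 0 := Finset.sum_comm
      _ = ∑ q ∈ PN (n + 1), W q * (((DB n).filter (fun p => q ∣ p - 1)).card : ℝ) := by
          refine Finset.sum_congr rfl fun q _ => ?_
          rw [← Finset.sum_filter, Finset.sum_const, nsmul_eq_mul, mul_comm]
  have hcard : ∀ q ∈ PN (n + 1), (((DB n).filter (fun p => q ∣ p - 1)).card : ℝ)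
      ≤ (((DB n).filter (fun p => 1 * q ∣ p - 1 ∧ ((p - 1) / (1 * q)) ^ κ < 2 ^ n)).card : ℝ)
        + (4 * κ * C₂ / Real.log 2) * (2 ^ n / n) * (1 / q) := by
    intro q hq
    have hqp : q.Prime := by
      simp only [PN, mem_filter] at hq
      exact hq.2
    have h1 : (DB n).filter (fun p => q ∣ p - 1) ⊆
        (DB n).filter (fun p => 1 * q ∣ p - 1 ∧ ((p - 1) / (1 * q)) ^ κ < 2 ^ n) ∪
        (DB n).filter (fun p => q ∣ p - 1 ∧ 2 ^ n ≤ ((p - 1) / q) ^ κ) := by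
      intro p hp
      simp only [mem_filter, mem_union, one_mul] at hp ⊢
      rcases lt_or_ge (((p - 1) / q) ^ κ) (2 ^ n) with h | h
      · exact Or.inl ⟨hp.1, hp.2, h⟩
      · exact Or.inr ⟨hp.1, hp.2, h⟩
    have h2 := (Finset.card_le_card h1).trans (Finset.card_union_le _ _)
    have h3 : (((DB n).filter (fun p => q ∣ p - 1)).card : ℝ) ≤
        (((DB n).filter (fun p => 1 * q ∣ p - 1 ∧ ((p - 1) / (1 * q)) ^ κ < 2 ^ n)).card : ℝ)
        + (((DB n).filter (fun p => q ∣ p - 1 ∧ 2 ^ n ≤ ((p - 1) / q) ^ κ)).card : ℝ) := by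
      exact_mod_cast h2
    have h4 := card_large κ C₂ hC₂ hBT hκ n hn q hqp
    linarith
  have hNB1 := hNB n hn 1 (Or.inl rfl) (by simpa using Nat.one_le_two_pow) W B hW hB
  have hsum2 : ∑ q ∈ PN (n + 1), W q * ((4 * κ * C₂ / Real.log 2) * (2 ^ n / n) * (1 / q))
      = (4 * κ * C₂ / Real.log 2) * (2 ^ n / n) * ∑ q ∈ PN (n + 1), W q / q := by
    rw [Finset.mul_sum]
    refine Finset.sum_congr rfl fun q _ => ?_
    ring
  have hstep2 : ∑ q ∈ PN (n + 1), W q * (((DB n).filter (fun p => q ∣ p - 1)).card : ℝ)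
      ≤ ∑ q ∈ PN (n + 1), W q *
        (((DB n).filter (fun p => 1 * q ∣ p - 1 ∧ ((p - 1) / (1 * q)) ^ κ < 2 ^ n)).card : ℝ)
        + (4 * κ * C₂ / Real.log 2) * (2 ^ n / n) * ∑ q ∈ PN (n + 1), W q / q := by
    rw [← hsum2, ← Finset.sum_add_distrib]
    refine Finset.sum_le_sum fun q hq => ?_
    rw [← mul_add]
    exact mul_le_mul_of_nonneg_left (hcard q hq) (hW q)
  have hSnn : 0 ≤ ∑ q ∈ PN (n + 1), W q / q :=
    Finset.sum_nonneg fun q _ => div_nonneg (hW q) (Nat.cast_nonneg q)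
  have e1 : C₁ * (2 ^ n / (((1 : ℕ) : ℝ) * n)) * ∑ k ∈ PN (n + 1), W k / k
      + C₁ * B * 2 ^ n / (((1 : ℕ) : ℝ) * (n * √n))
      = C₁ * (2 ^ n / n) * ∑ k ∈ PN (n + 1), W k / k + C₁ * B * 2 ^ n / (n * √n) := by
    rw [Nat.cast_one, one_mul, one_mul]
  rw [e1] at hNB1
  have hextra : C₁ * B * 2 ^ n / (n * √n) ≤
      (C₁ + 4 * κ * C₂ / Real.log 2) * B * 2 ^ n / (n * √n) := by
    have hs : 0 ≤ (n : ℝ) * √n := by positivity
    have hc : 0 ≤ 4 * κ * C₂ / Real.log 2 := by positivity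
    apply div_le_div_of_nonneg_right _ hs
    have : 0 ≤ (4 * κ * C₂ / Real.log 2) * B * 2 ^ n := by positivity
    nlinarith
  calc ∑ p ∈ DB n, ∑ q ∈ (p - 1).primeFactors, W q
      ≤ _ := hstep
    _ ≤ _ := hstep2
    _ ≤ (C₁ * (2 ^ n / n) * ∑ k ∈ PN (n + 1), W k / k + C₁ * B * 2 ^ n / (n * √n))
        + (4 * κ * C₂ / Real.log 2) * (2 ^ n / n) * ∑ q ∈ PN (n + 1), W q / q := by
        linarith
    _ ≤ (C₁ + 4 * κ * C₂ / Real.log 2) * (2 ^ n / n) * ∑ q ∈ PN (n + 1), W q / q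
        + (C₁ + 4 * κ * C₂ / Real.log 2) * B * 2 ^ n / (n * √n) := by
        have : C₁ * (2 ^ n / n) * ∑ k ∈ PN (n + 1), W k / k
          + (4 * κ * C₂ / Real.log 2) * (2 ^ n / n) * ∑ q ∈ PN (n + 1), W q / q
          = (C₁ + 4 * κ * C₂ / Real.log 2) * (2 ^ n / n) * ∑ q ∈ PN (n + 1), W q / q := by
          ring
        linarith

end Pool.Agent.Helper65.Tot
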